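import Pool.Agent.X2.BaumSweet

/-!
# MP_4e5b66_nt, Q1: the zero positions of the Baum–Sweet sequence are not regular
-/

namespace Pool.Agent.Results.MP_4e5b66_nt.NotRegular

open Pool.Agent.X2.BaumSweet

/-- Q1, negative answer: the strictly increasing enumeration `h 2` of the zeros of the
Baum–Sweet sequence `b 2` is not `k`-regular for any `k ≥ 2`. -/
theorem result : StrictMono (h 2) ∧ Set.range (h 2) = {m | b 2 m = 0} ∧
    ∀ k : ℕ, 2 ≤ k → ¬ Regular k (fun n => (h 2 n : ℤ)) :=
  ⟨h_strictMono (le_refl 2), h_range (le_refl 2), fun _ hk => not_regular (le_refl 2) hk⟩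

end Pool.Agent.Results.MP_4e5b66_nt.NotRegular
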